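import Pool.Agent.VD.App3

set_option autoImplicit false

open Set Topology

namespace Pool.Agent.Results.MP_7e4b22_gt.EveryCardinal

universe u

/-- `C_p(X)`: the continuous functions `X → ℝ` with the topology of pointwise convergence, that
is, the subspace topology from the product `ℝ^X`. -/
abbrev Cp (X : Type u) [TopologicalSpace X] : Type u := {f : X → ℝ // Continuous f}

/-- The subspace `Y ⊆ X` is t-embedded in `X`: there is a continuous map `φ : C_p(Y) → C_p(X)`
with `φ(f)` extending `f` for every `f`. -/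
def TEmbedded {X : Type u} [TopologicalSpace X] (Y : Set X) : Prop :=
  ∃ φ : Cp Y → Cp X, Continuous φ ∧ ∀ (f : Cp Y) (y : Y), (φ f).1 (y : X) = f.1 y

/-- The subspace `Y ⊆ X` is l-embedded in `X`: there is a continuous map `φ : C_p(Y) → C_p(X)`
with `φ(f)` extending `f` for every `f`, and `φ` is linear: `φ(a f + b g) = a φ(f) + b φ(g)`. -/
def LEmbedded {X : Type u} [TopologicalSpace X] (Y : Set X) : Prop :=
  ∃ φ : Cp Y → Cp X, Continuous φ ∧ (∀ (f : Cp Y) (y : Y), (φ f).1 (y : X) = f.1 y) ∧
    ∀ (a b : ℝ) (f g h : Cp Y), (∀ y, h.1 y = a * f.1 y + b * g.1 y) →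
      ∀ x, (φ h).1 x = a * (φ f).1 x + b * (φ g).1 x

/-- There is a t-embedding of `Z` in `X`: a homeomorphism of `Z` onto a t-embedded subspace. -/
def HasTEmbedding (Z : Type u) [TopologicalSpace Z] (X : Type u) [TopologicalSpace X] : Prop :=
  ∃ e : Z → X, IsEmbedding e ∧ TEmbedded (range e)

/-- There is an l-embedding of `Z` in `X`: a homeomorphism of `Z` onto an l-embedded subspace. -/
def HasLEmbedding (Z : Type u) [TopologicalSpace Z] (X : Type u) [TopologicalSpace X] : Prop :=
  ∃ e : Z → X, IsEmbedding e ∧ LEmbedded (range e)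

/-- `Z` is (homeomorphic to) a retract of `X`. -/
def IsRetractOf (Z : Type u) [TopologicalSpace Z] (X : Type u) [TopologicalSpace X] : Prop :=
  ∃ (e : Z → X) (r : X → Z), Continuous e ∧ Continuous r ∧ ∀ z, r (e z) = z

/-- `K` is homogeneous. -/
def Homogeneous (K : Type u) [TopologicalSpace K] : Prop :=
  ∀ x y : K, ∃ h : K ≃ₜ K, h x = y

/-- For every discrete space `ι`, the one-point compactification `A(|ι|)` of `ι` has a t-embedding,
even an l-embedding, in some homogeneous compact Hausdorff space `K`; it is a retract of `K`, and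
`K` is zero-dimensional and has a family of pairwise disjoint nonempty clopen sets indexed
by `ι`. -/
theorem result (ι : Type u) [TopologicalSpace ι] [DiscreteTopology ι] :
    ∃ (K : Type u) (_ : TopologicalSpace K), CompactSpace K ∧ T2Space K ∧
      TotallyDisconnectedSpace K ∧ Homogeneous K ∧
      HasTEmbedding (OnePoint ι) K ∧ HasLEmbedding (OnePoint ι) K ∧ IsRetractOf (OnePoint ι) K ∧
      ∃ O : ι → Set K, (∀ t, IsClopen (O t)) ∧ (∀ t, (O t).Nonempty) ∧
        ∀ s t, s ≠ t → Disjoint (O s) (O t) := by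
  obtain ⟨K, tK, h1, h2, h3, h4, e, r, he, hr, h⟩ := Pool.Agent.VD.onePoint ι
  have hl := Pool.Agent.Helper68.TE.hasLEmbedding_of_retract e r he hr h
  refine ⟨K, tK, h1, h2, h3, h4, Pool.Agent.Helper68.TE.HasLEmbedding.hasTEmbedding hl, hl,
    ⟨e, r, he, hr, h⟩, fun t => r ⁻¹' {(t : OnePoint ι)}, fun t => ?_, fun t => ?_,
    fun s t hst => ?_⟩
  · refine IsClopen.preimage ⟨isClosed_singleton, ?_⟩ hr
    rw [← Set.image_singleton]
    exact OnePoint.isOpen_image_coe.2 (isOpen_discrete _)
  · exact ⟨e t, h t⟩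
  · rw [Set.disjoint_left]
    intro x hx hx'
    exact hst (OnePoint.coe_injective ((show r x = s from hx).symm.trans hx'))

end Pool.Agent.Results.MP_7e4b22_gt.EveryCardinal
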