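import Pool.Agent.Helper90.TE.Fan

set_option autoImplicit false

open Set Topology Cardinal

namespace Pool.Agent.Results.MP_7e4b22_gt.PiWeight

universe u

/-- `C_p(X)`: the continuous functions `X → ℝ` with the topology of pointwise convergence, that
is, the subspace topology from the product `ℝ^X`. -/
abbrev Cp (X : Type u) [TopologicalSpace X] : Type u := {f : X → ℝ // Continuous f}

/-- The subspace `Y ⊆ X` is t-embedded in `X`: there is a continuous map
`φ : C_p(Y) → C_p(X)` with `φ(f)` extending `f` for every `f`. -/
def TEmbedded {X : Type u} [TopologicalSpace X] (Y : Set X) : Prop :=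
  ∃ φ : Cp Y → Cp X, Continuous φ ∧ ∀ (f : Cp Y) (y : Y), (φ f).1 (y : X) = f.1 y

/-- There is a t-embedding of `Z` in `X`: a homeomorphism of `Z` onto a t-embedded subspace
of `X`. -/
def HasTEmbedding (Z : Type u) [TopologicalSpace Z] (X : Type u) [TopologicalSpace X] : Prop :=
  ∃ e : Z → X, IsEmbedding e ∧ TEmbedded (range e)

/-- `K` is homogeneous. -/
def Homogeneous (K : Type u) [TopologicalSpace K] : Prop :=
  ∀ x y : K, ∃ h : K ≃ₜ K, h x = y

/-- `B` is a π-base of `K`: its members are nonempty open sets and every nonempty open set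
contains a member. -/
def IsPiBase {K : Type u} [TopologicalSpace K] (B : Set (Set K)) : Prop :=
  (∀ V ∈ B, IsOpen V ∧ V.Nonempty) ∧
    ∀ V : Set K, IsOpen V → V.Nonempty → ∃ W ∈ B, W ⊆ V

/-- Let `ι` be an uncountable discrete space and let `K` be a homogeneous compact Hausdorff
space which contains a t-embedded copy of the one-point compactification of `ι`. Then every
π-base of `K` has cardinality greater than every regular uncountable cardinal `c ≤ |ι|`. -/
theorem result (ι : Type u) [TopologicalSpace ι] [DiscreteTopology ι]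
    (K : Type u) [TopologicalSpace K] [CompactSpace K] [T2Space K] (hom : Homogeneous K)
    (h : HasTEmbedding (OnePoint ι) K) (B : Set (Set K)) (hB : IsPiBase B)
    (c : Cardinal.{u}) (hr : c.IsRegular) (hc : ℵ₀ < c) (hcι : c ≤ #ι) : c < #B :=
  Pool.Agent.Helper90.TE.main ι K hom h B (fun V hV => (hB.1 V hV).1) (fun V hV => (hB.1 V hV).2)
    hB.2 c hr hc hcι

end Pool.Agent.Results.MP_7e4b22_gt.PiWeight
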