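import Pool.Agent.VD.App3

set_option autoImplicit false

open Set Topology

namespace Pool.Agent.Results.MP_7e4b22_gt.PointFiniteClass

universe u

/-- `C_p(X)`: the continuous functions `X → ℝ` with the topology of pointwise convergence, that
is, the subspace topology from the product `ℝ^X`. -/
abbrev Cp (X : Type u) [TopologicalSpace X] : Type u := {f : X → ℝ // Continuous f}

/-- The subspace `Y ⊆ X` is l-embedded in `X`: there is a continuous map `φ : C_p(Y) → C_p(X)`
with `φ(f)` extending `f` for every `f`, and `φ` is linear: `φ(a f + b g) = a φ(f) + b φ(g)`. -/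
def LEmbedded {X : Type u} [TopologicalSpace X] (Y : Set X) : Prop :=
  ∃ φ : Cp Y → Cp X, Continuous φ ∧ (∀ (f : Cp Y) (y : Y), (φ f).1 (y : X) = f.1 y) ∧
    ∀ (a b : ℝ) (f g h : Cp Y), (∀ y, h.1 y = a * f.1 y + b * g.1 y) →
      ∀ x, (φ h).1 x = a * (φ f).1 x + b * (φ g).1 x

/-- There is an l-embedding of `Z` in `X`: a homeomorphism of `Z` onto an l-embedded subspace
of `X`. -/
def HasLEmbedding (Z : Type u) [TopologicalSpace Z] (X : Type u) [TopologicalSpace X] : Prop :=
  ∃ e : Z → X, IsEmbedding e ∧ LEmbedded (range e)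

/-- `Z` is (homeomorphic to) a retract of `X`. -/
def IsRetractOf (Z : Type u) [TopologicalSpace Z] (X : Type u) [TopologicalSpace X] : Prop :=
  ∃ (e : Z → X) (r : X → Z), Continuous e ∧ Continuous r ∧ ∀ z, r (e z) = z

/-- `K` is homogeneous. -/
def Homogeneous (K : Type u) [TopologicalSpace K] : Prop :=
  ∀ x y : K, ∃ h : K ≃ₜ K, h x = y

/-- The complement of every point of `X` is the union of a point-finite family of clopen subsets
of `X`. -/
def PointFinite (X : Type u) [TopologicalSpace X] : Prop :=
  ∀ p : X, ∃ 𝒱 : Set (Set X), (∀ V ∈ 𝒱, IsClopen V) ∧ ⋃₀ 𝒱 = {p}ᶜ ∧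
    ∀ x : X, {V ∈ 𝒱 | x ∈ V}.Finite

/-- Let each `X j` be a nonempty compact Hausdorff space in which the complement of every point is
the union of a point-finite family of clopen subsets, or a closed interval. Then the product of the
`X j` is a retract of a homogeneous compact Hausdorff space `K`, and every space with an
l-embedding in this product has an l-embedding in `K`. -/
theorem result (J : Type u) (X : J → Type u) [∀ j, TopologicalSpace (X j)]
    [∀ j, CompactSpace (X j)] [∀ j, T2Space (X j)] [∀ j, Nonempty (X j)]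
    (hX : ∀ j, PointFinite (X j) ∨ Nonempty (X j ≃ₜ unitInterval)) :
    ∃ (K : Type u) (_ : TopologicalSpace K), CompactSpace K ∧ T2Space K ∧ Homogeneous K ∧
      IsRetractOf (∀ j, X j) K ∧
      ∀ (Z : Type u) [TopologicalSpace Z], HasLEmbedding Z (∀ j, X j) → HasLEmbedding Z K := by
  have key : ∀ j, Pool.Agent.Helper68.TE.InR (X j) := by
    intro j
    rcases hX j with h | ⟨⟨f⟩⟩
    · choose 𝒱 h1 h2 h3 using h
      refine Pool.Agent.VD.inR_pf (κ := Set (X j)) (fun e a => {c | a ∈ 𝒱 e ∧ c ∈ a}) ?_ ?_ ?_ ?_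
      · intro e a
        by_cases ha : a ∈ 𝒱 e
        · have : {c | a ∈ 𝒱 e ∧ c ∈ a} = a := by
            ext c
            simp [ha]
          rw [this]
          exact h1 e a ha
        · have : {c | a ∈ 𝒱 e ∧ c ∈ a} = ∅ := by
            ext c
            simp [ha]
          rw [this]
          exact isClopen_empty
      · rintro e a ⟨ha, hea⟩
        have : e ∈ ({e} : Set (X j))ᶜ := by
          rw [← h2 e]
          exact ⟨a, ha, hea⟩
        exact this rfl
      · intro e c hc
        have : c ∈ ⋃₀ 𝒱 e := by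
          rw [h2 e]
          exact hc
        obtain ⟨a, ha, hca⟩ := this
        exact ⟨a, ha, hca⟩
      · intro e c
        exact h3 e c
    · exact Pool.Agent.VD.inR_interval (X j) f
  obtain ⟨K, tK, k1, k2, k3, e, r, he, hr, h⟩ := Pool.Agent.Helper68.TE.InR.pi key
  exact ⟨K, tK, k1, k2, k3, ⟨e, r, he, hr, h⟩, fun Z _ hZ => Pool.Agent.VD.lEmb_comp hZ e r he hr h⟩

end Pool.Agent.Results.MP_7e4b22_gt.PointFiniteClass
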