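import Pool.Agent.TI.Main

set_option autoImplicit false

open Set Topology Cardinal

namespace Pool.Agent.Results.MP_7e4b22_gt.TightProducts

universe u v w

/-- `C_p(X)`: the continuous functions `X → ℝ` with the topology of pointwise convergence, that
is, the subspace topology from the product `ℝ^X`. -/
abbrev Cp (X : Type u) [TopologicalSpace X] : Type u := {f : X → ℝ // Continuous f}

/-- The subspace `Y ⊆ X` is t-embedded in `X`: there is a continuous map `φ : C_p(Y) → C_p(X)`
with `φ(f)` extending `f` for every `f`. -/
def TEmbedded {X : Type u} [TopologicalSpace X] (Y : Set X) : Prop :=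
  ∃ φ : Cp Y → Cp X, Continuous φ ∧ ∀ (f : Cp Y) (y : Y), (φ f).1 (y : X) = f.1 y

/-- There is a t-embedding of `Z` in `X`: a homeomorphism of `Z` onto a t-embedded subspace
of `X`. -/
def HasTEmbedding (Z : Type v) [TopologicalSpace Z] (X : Type w) [TopologicalSpace X] : Prop :=
  ∃ e : Z → X, IsEmbedding e ∧ TEmbedded (range e)

/-- The tightness of `X` is less than `κ`: every point of the closure of a set `A` is in the
closure of a subset of `A` of cardinality less than `κ`. -/
def TightnessLT (κ : Cardinal.{u}) (X : Type u) [TopologicalSpace X] : Prop :=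
  ∀ (A : Set X) (x : X), x ∈ closure A → ∃ B ⊆ A, #B < κ ∧ x ∈ closure B

/-- Let `κ` be a regular uncountable cardinal and let `K` be a continuous image of a product of
compact Hausdorff spaces of tightness less than `κ`. Let `Z` be a compact Hausdorff space which has
a closed `G_δ` subset `Y` that maps continuously onto the ordinal space `[0,κ]` (for instance
`Z = Y = [0,κ]`). Then `Z` has no t-embedding in `K`. -/
theorem result (κ : Cardinal.{u}) (hκ : κ.IsRegular) (hκ' : ℵ₀ < κ)
    (I : Type u) (P : I → Type u) [∀ i, TopologicalSpace (P i)] [∀ i, CompactSpace (P i)]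
    [∀ i, T2Space (P i)] (hP : ∀ i, TightnessLT κ (P i))
    (K : Type w) [TopologicalSpace K] (q : (∀ i, P i) → K) (hq : Continuous q)
    (hqs : Function.Surjective q)
    (Z : Type v) [TopologicalSpace Z] [CompactSpace Z] [T2Space Z]
    (Y : Set Z) (hY : IsClosed Y) (hY' : IsGδ Y)
    (g : Y → Set.Iic κ.ord) (hg : Continuous g) (hgs : Function.Surjective g) :
    ¬ HasTEmbedding Z K := by
  rintro ⟨e, he, φ, hφ, hext⟩
  exact TI.main κ hκ hκ' I P hP K q hq hqs Z Y hY hY' g hg hgs e he φ hφ hext

end Pool.Agent.Results.MP_7e4b22_gt.TightProducts
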